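import Pool.Agent.MP_f6f0d4_nt.H33.Core

/-! Long runs of distinct values of the divisor function: the choice of the parameters. -/

namespace Pool.Agent.MP_f6f0d4_nt.H33
open Finset Filter Real

theorem ev_log_pow_le (k : ℕ) {c : ℝ} (hc : 0 < c) : ∀ᶠ x : ℝ in atTop, log x ^ k ≤ c * x := by
  filter_upwards [(isLittleO_pow_log_id_atTop (n := k)).bound hc, eventually_ge_atTop 0] with x hx h0
  rw [id, norm_of_nonneg h0] at hx
  exact (le_abs_self _).trans hx

theorem pi_lower : ∀ᶠ n : ℕ in atTop, (n : ℝ) / (2 * log n) ≤ n.primeCounting := by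
  have h1 : ∀ᶠ n : ℕ in atTop, log ((n : ℝ) + 1) ^ 1 ≤ (1 / 20) * ((n : ℝ) + 1) :=
    (tendsto_atTop_add_const_right _ 1 tendsto_natCast_atTop_atTop).eventually
      (ev_log_pow_le 1 (by norm_num))
  filter_upwards [h1, eventually_ge_atTop 2] with n hn h2
  have h3 : (2 : ℝ) ≤ n := by exact_mod_cast h2
  have h4 : 0 < log (n : ℝ) := log_pos (by linarith)
  refine le_trans ?_ (Chebyshev.pi_ge n)
  rw [mul_comm 2, ← div_div, div_right_comm]
  refine div_le_div_of_nonneg_right ?_ h4.le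
  have := log_two_gt_d9
  nlinarith

theorem primes_upto : ∀ᶠ m : ℕ in atTop, ∃ z : ℕ, (z : ℝ) ≤ 13 * m * log m ∧ z ≤ m ^ 2 ∧
    3 * m ≤ z.primeCounting := by
  obtain ⟨n0, hn0⟩ := eventually_atTop.1 pi_lower
  have h1 : ∀ᶠ m : ℕ in atTop, log (m : ℝ) ^ 1 ≤ (1 / 13) * (m : ℝ) :=
    tendsto_natCast_atTop_atTop.eventually (ev_log_pow_le 1 (by norm_num))
  have h2 : ∀ᶠ m : ℕ in atTop, 1 ≤ log (m : ℝ) :=
    (tendsto_log_atTop.comp tendsto_natCast_atTop_atTop).eventually (eventually_ge_atTop 1)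
  filter_upwards [h1, h2, eventually_ge_atTop n0, eventually_ge_atTop 2] with m hm hl hn h3
  have h4 : (2 : ℝ) ≤ m := by exact_mod_cast h3
  set z := ⌈12 * (m : ℝ) * log m⌉₊ with hz
  have h5 : 12 * (m : ℝ) * log m ≤ z := Nat.le_ceil _
  have h6 : (z : ℝ) < 12 * (m : ℝ) * log m + 1 := Nat.ceil_lt_add_one (by positivity)
  have h7 : (z : ℝ) ≤ 13 * m * log m := by nlinarith
  have h8 : (z : ℝ) ≤ (m : ℝ) ^ 2 := by nlinarith
  have h9 : (m : ℝ) ≤ z := by nlinarith
  have h10 : m ≤ z := by exact_mod_cast h9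
  refine ⟨z, h7, by exact_mod_cast h8, ?_⟩
  have h11 := hn0 z (hn.trans h10)
  have h12 : log (z : ℝ) ≤ 2 * log m := by
    have := log_le_log (by linarith) h8
    rwa [log_pow] at this
  have h13 : 0 < log (z : ℝ) := log_pos (by linarith)
  have h14 : (3 * m : ℝ) ≤ z / (2 * log z) := by
    rw [le_div_iff₀ (by positivity)]
    nlinarith
  exact_mod_cast h14.trans h11

theorem run_exists : ∀ᶠ L : ℕ in atTop, ∃ n : ℕ,
    log ((n + L : ℕ) : ℝ) ≤ 2000 * (L * log L ^ 3 * log (log L)) ∧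
      Set.InjOn (fun m : ℕ => #m.divisors) (Set.Icc (n + 1) (n + L)) := by
  obtain ⟨m0, hm0⟩ := eventually_atTop.1 primes_upto
  have hlog : Tendsto (fun L : ℕ => log (L : ℝ)) atTop atTop :=
    tendsto_log_atTop.comp tendsto_natCast_atTop_atTop
  have h1 : ∀ᶠ L : ℕ in atTop, log (L : ℝ) ^ 1 ≤ (1 / 4) * (L : ℝ) :=
    tendsto_natCast_atTop_atTop.eventually (ev_log_pow_le 1 (by norm_num))
  have h2 : ∀ᶠ L : ℕ in atTop, 1 ≤ log (log (L : ℝ)) :=
    (tendsto_log_atTop.comp hlog).eventually (eventually_ge_atTop 1)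
  filter_upwards [h1, h2, hlog.eventually (eventually_ge_atTop 2), eventually_ge_atTop (2 ^ m0),
    eventually_ge_atTop m0, eventually_ge_atTop 8] with L hL1 hL2 hL3 hL4 hL5 hL6
  set t := Nat.log 2 L + 1 with ht
  have hLt : L < 2 ^ t := Nat.lt_pow_succ_log_self (by norm_num) L
  have htL : 2 ^ Nat.log 2 L ≤ L := Nat.pow_log_le_self 2 (by omega)
  have ht0 : m0 ≤ t := by
    have : 2 ^ m0 < 2 ^ t := by omega
    exact ((Nat.pow_lt_pow_iff_right (by norm_num : 1 < 2)).1 this).le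
  have ht3 : 3 ≤ t := by
    have : 2 ^ 3 < 2 ^ t := by omega
    exact ((Nat.pow_lt_pow_iff_right (by norm_num : 1 < 2)).1 this).le
  have hL8 : (8 : ℝ) ≤ L := by exact_mod_cast hL6
  have ht2 : (t : ℝ) ≤ 2 * log L := by
    have h3 : ((2 : ℝ)) ^ Nat.log 2 L ≤ L := by exact_mod_cast htL
    have h4 := log_le_log (by positivity) h3
    rw [log_pow] at h4
    have h5 := log_two_gt_d9
    have h6 : (0 : ℝ) ≤ Nat.log 2 L := by positivity
    rw [ht]
    push_cast
    nlinarith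
  obtain ⟨z, hz1, -, hz3⟩ := hm0 t ht0
  obtain ⟨W, -, hW2, hW3⟩ := hm0 (L * t + 4 * L) (by omega)
  obtain ⟨n, hn1, hn2⟩ := core L W z t (by omega) ht3 hLt (by omega) (by omega)
  refine ⟨n, ?_, hn2⟩
  have h3 : t + 4 ≤ L := by
    have : (t : ℝ) + 4 ≤ L := by nlinarith
    exact_mod_cast this
  have h4 : W ≤ L ^ 4 := by
    calc W ≤ (L * t + 4 * L) ^ 2 := hW2
      _ ≤ (L * L) ^ 2 := by
          refine Nat.pow_le_pow_left ?_ _
          nlinarith
      _ = _ := by ring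
  have h5 : n + L ≤ L ^ (16 * (L * t * z)) := by
    calc n + L ≤ W ^ (4 * (L * t * z)) := hn1
      _ ≤ (L ^ 4) ^ (4 * (L * t * z)) := Nat.pow_le_pow_left h4 _
      _ = _ := by rw [← pow_mul]; congr 1; ring
  have h6 : ((n + L : ℕ) : ℝ) ≤ (L : ℝ) ^ (16 * (L * t * z)) := by exact_mod_cast h5
  have h7 := log_le_log (by push_cast; positivity) h6
  rw [log_pow] at h7
  refine h7.trans ?_
  push_cast
  have ht1 : (3 : ℝ) ≤ t := by exact_mod_cast ht3
  have h8 : log (t : ℝ) ≤ 2 * log (log L) := by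
    have h9 := log_le_log (by linarith) ht2
    rw [log_mul (by norm_num) (by linarith)] at h9
    have := log_two_lt_d9
    linarith
  have h9 : 0 ≤ log (t : ℝ) := log_nonneg (by linarith)
  have h10 : (z : ℝ) ≤ 13 * (2 * log L) * (2 * log (log L)) := by
    refine hz1.trans ?_
    gcongr
  calc 16 * ((L : ℝ) * t * z) * log L
      ≤ 16 * ((L : ℝ) * (2 * log L) * (13 * (2 * log L) * (2 * log (log L)))) * log L := by
        gcongr
    _ = 1664 * (L * log L ^ 3 * log (log L)) := by ring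
    _ ≤ _ := by gcongr; norm_num

theorem main : ∀ᶠ N : ℕ in atTop, ∃ n k : ℕ, 1 ≤ n ∧ n ≤ N ∧
    (1 / 4000) * (log N / (log (log N) ^ 3 * log (log (log N)))) ≤ k ∧
      Set.InjOn (fun m : ℕ => #m.divisors) (Set.Icc n (n + k)) := by
  obtain ⟨L0, hL0⟩ := eventually_atTop.1 run_exists
  have hlog : Tendsto (fun N : ℕ => log (N : ℝ)) atTop atTop :=
    tendsto_log_atTop.comp tendsto_natCast_atTop_atTop
  have hll := tendsto_log_atTop.comp hlog
  have hlll := tendsto_log_atTop.comp hll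
  have hc : (0 : ℝ) < 1 / (4000 * (L0 + 3)) := by positivity
  filter_upwards [hlog.eventually (ev_log_pow_le 4 hc), hlog.eventually (eventually_ge_atTop 1),
    hll.eventually (eventually_ge_atTop 1), hlll.eventually (eventually_ge_atTop 1),
    eventually_ge_atTop 1] with N h1 h2 h3 h4 hN
  simp only [Function.comp] at h3 h4
  set l := log (N : ℝ) with hl
  set D := log l ^ 3 * log (log l) with hD
  have hD1 : 1 ≤ D := one_le_mul_of_one_le_of_one_le (one_le_pow₀ h3) h4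
  have hD2 : D ≤ log l ^ 4 := by
    have h5 : log (log l) ≤ log l := (log_le_sub_one_of_pos (by linarith)).trans (by linarith)
    calc D ≤ log l ^ 3 * log l := by rw [hD]; gcongr
      _ = _ := by ring
  set F := (1 / 4000) * (l / D) with hF
  have hFD : F * D = l / 4000 := by rw [hF]; field_simp
  have hF1 : (L0 : ℝ) + 3 ≤ F := by
    have h5 : ((L0 : ℝ) + 3) * D ≤ l / 4000 := by
      calc ((L0 : ℝ) + 3) * D ≤ ((L0 : ℝ) + 3) * (1 / (4000 * (L0 + 3)) * l) := by
            gcongr; exact hD2.trans h1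
        _ = l / 4000 := by field_simp
    rw [← hFD] at h5
    exact le_of_mul_le_mul_right h5 (by linarith)
  have hL00 : (0 : ℝ) ≤ L0 := by positivity
  set k := ⌈F⌉₊ with hk
  have hk1 : F ≤ k := Nat.le_ceil _
  have hk2 : (k : ℝ) < F + 1 := Nat.ceil_lt_add_one (by linarith)
  have hk3 : L0 ≤ k + 1 := by
    have : (L0 : ℝ) ≤ k + 1 := by linarith
    exact_mod_cast this
  obtain ⟨n, hn1, hn2⟩ := hL0 (k + 1) hk3
  refine ⟨n + 1, k, by omega, ?_, hk1, by rwa [add_assoc, add_comm 1 k]⟩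
  set L : ℝ := ((k + 1 : ℕ) : ℝ) with hL
  have hL1 : L ≤ 2 * F := by rw [hL]; push_cast; linarith
  have hL2 : 4 ≤ L := by rw [hL]; push_cast; linarith
  have hL3 : L ≤ l := by nlinarith
  have hL4 : log L ≤ log l := log_le_log (by linarith) hL3
  have hL5 : 1 ≤ log L := by
    rw [le_log_iff_exp_le (by linarith)]
    have := exp_one_lt_d9
    linarith
  have hL6 : log (log L) ≤ log (log l) := log_le_log (by linarith) hL4
  have hL7 : 0 ≤ log (log L) := log_nonneg hL5
  have h5 : log ((n + (k + 1) : ℕ) : ℝ) ≤ l := by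
    refine hn1.trans ?_
    calc 2000 * (L * log L ^ 3 * log (log L)) ≤ 2000 * (2 * F * log l ^ 3 * log (log l)) := by
          gcongr
      _ = 4000 * (F * D) := by rw [hD]; ring
      _ = l := by rw [hFD]; ring
  have hN' : (0 : ℝ) < N := by exact_mod_cast hN
  have h6 : ((n + (k + 1) : ℕ) : ℝ) ≤ N :=
    (log_le_log_iff (by push_cast; positivity) hN').1 h5
  have h7 : n + (k + 1) ≤ N := by exact_mod_cast h6
  omega

end Pool.Agent.MP_f6f0d4_nt.H33
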