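import Mathlib

/-! Long runs of distinct values of the divisor function: the construction. -/

namespace Pool.Agent.MP_f6f0d4_nt.H33
open Finset

theorem exists_inj {α β : Type*} [Nonempty β] (s : Finset α) (u : Finset β) (h : #s ≤ #u) :
    ∃ f : α → β, (∀ a ∈ s, f a ∈ u) ∧ Set.InjOn f s := by
  obtain ⟨f, h1, h2⟩ := Set.Finite.exists_injOn_of_encard_le (t := (u : Set β)) s.finite_toSet (by
    rw [Set.encard_coe_eq_coe_finsetCard, Set.encard_coe_eq_coe_finsetCard]
    exact_mod_cast h)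
  exact ⟨f, fun a ha => h1 ha, h2⟩

theorem val_eq {p e m : ℕ} (hp : p.Prime) (hm : m ≠ 0) (h : m ≡ p ^ e [MOD p ^ (e + 1)]) :
    m.factorization p = e := by
  have h1 : p ^ e ∣ m :=
    ((h.of_dvd (pow_dvd_pow p (Nat.le_succ e))).dvd_iff dvd_rfl).2 dvd_rfl
  have h2 : ¬ p ^ (e + 1) ∣ m := fun h2 => by
    have h3 : p ^ (e + 1) ∣ p ^ e := (h.dvd_iff dvd_rfl).1 h2
    have := (Nat.pow_dvd_pow_iff_le_right hp.one_lt).1 h3
    omega
  rw [hp.pow_dvd_iff_le_factorization hm] at h1 h2
  omega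

theorem val_small {p n i L Y t : ℕ} (hp : p.Prime) (hpY : p ≤ Y) (hi : 1 ≤ i) (hiL : i ≤ L)
    (hL : L < 2 ^ t) (hn : Y.factorial * L.factorial ∣ n) : (n + i).factorization p < t := by
  by_contra hcon
  push Not at hcon
  have hi0 : i ≠ 0 := by omega
  have h1 : p ^ t ∣ n + i := (hp.pow_dvd_iff_le_factorization (by omega)).2 hcon
  have h2 : p ^ i.factorization p ∣ i := Nat.ordProj_dvd i p
  have h3 : i.factorization p < t := by
    have h4 : 2 ^ i.factorization p ≤ p ^ i.factorization p := Nat.pow_le_pow_left hp.two_le _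
    have h5 : p ^ i.factorization p ≤ i := Nat.le_of_dvd hi h2
    exact (Nat.pow_lt_pow_iff_right (by norm_num : 1 < 2)).1 (by omega)
  have h6 : p ^ (i.factorization p + 1) ∣ n := by
    refine Dvd.dvd.trans ?_ hn
    rw [pow_succ']
    exact mul_dvd_mul (hp.dvd_factorial.2 hpY) (h2.trans (Nat.dvd_factorial hi hiL))
  have h7 : p ^ (i.factorization p + 1) ∣ n + i := (pow_dvd_pow p h3).trans h1
  have h8 : p ^ (i.factorization p + 1) ∣ i := (Nat.dvd_add_right h6).1 h7
  have := (hp.pow_dvd_iff_le_factorization hi0).1 h8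
  omega

theorem count_dvd {b M D : ℕ} (S : ℕ) (h : Nat.Coprime D M) :
    (#{s ∈ range S | D ∣ b + M * s} : ℝ) ≤ S / D + 1 := by
  have h1 : #{s ∈ range S | D ∣ b + M * s} ≤ #(range (S / D + 1)) := by
    refine card_le_card_of_injOn (fun s => s / D) ?_ ?_
    · intro s hs
      simp only [coe_filter, mem_range, Set.mem_ofPred_eq] at hs
      simp only [coe_range, Set.mem_Iio]
      exact Nat.lt_succ_of_le (Nat.div_le_div_right hs.1.le)
    · intro s hs s' hs' hss
      simp only [coe_filter, mem_range, Set.mem_ofPred_eq] at hs hs'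
      have h2 : b + M * s ≡ b + M * s' [MOD D] :=
        ((Nat.modEq_zero_iff_dvd).2 hs.2).trans ((Nat.modEq_zero_iff_dvd).2 hs'.2).symm
      have h3 : s ≡ s' [MOD D] := Nat.ModEq.cancel_left_of_coprime h (Nat.ModEq.add_left_cancel' b h2)
      have h4 : s / D = s' / D := hss
      rw [← Nat.div_add_mod s D, ← Nat.div_add_mod s' D, h4, h3]
  rw [card_range] at h1
  have h2 : ((S / D : ℕ) : ℝ) ≤ S / D := Nat.cast_div_le
  have h3 : (#{s ∈ range S | D ∣ b + M * s} : ℝ) ≤ ((S / D + 1 : ℕ) : ℝ) := by exact_mod_cast h1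
  push_cast at h3
  linarith

theorem sieve (a M L Y S R : ℕ) (hY : 0 < Y) (hR : a + M * S + L ≤ R ^ 2)
    (h : (L : ℝ) * (S / Y + R) < S) :
    ∃ s < S, ∀ i ∈ Icc 1 L, ∀ p : ℕ, Y < p → Nat.Coprime p M → ¬ p ^ 2 ∣ a + M * s + i := by
  by_contra hcon
  push Not at hcon
  have hsub : range S ⊆ (Icc 1 L).biUnion fun i => ({p ∈ Ioc Y R | Nat.Coprime p M}).biUnion
      fun p => {s ∈ range S | p ^ 2 ∣ (a + i) + M * s} := by
    intro s hs
    obtain ⟨i, hi, p, hp1, hp2, hp3⟩ := hcon s (mem_range.1 hs)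
    have hi' := mem_Icc.1 hi
    simp only [mem_biUnion, mem_filter, mem_Ioc]
    refine ⟨i, hi, p, ⟨⟨hp1, ?_⟩, hp2⟩, hs, by rwa [add_right_comm]⟩
    have h1 : p ^ 2 ≤ a + M * s + i := Nat.le_of_dvd (by omega) hp3
    have h2 : M * s ≤ M * S := Nat.mul_le_mul_left _ (mem_range.1 hs).le
    exact (Nat.pow_le_pow_iff_left (by norm_num : 2 ≠ 0)).1 (by omega)
  have h1 : (S : ℝ) ≤ ∑ i ∈ Icc 1 L, ∑ p ∈ {p ∈ Ioc Y R | Nat.Coprime p M},
      (#{s ∈ range S | p ^ 2 ∣ (a + i) + M * s} : ℝ) := by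
    have h2 := (card_le_card hsub).trans (card_biUnion_le.trans
      (sum_le_sum fun i _ => card_biUnion_le))
    rw [card_range] at h2
    exact_mod_cast h2
  have h3 : ∀ i ∈ Icc 1 L, ∑ p ∈ {p ∈ Ioc Y R | Nat.Coprime p M},
      (#{s ∈ range S | p ^ 2 ∣ (a + i) + M * s} : ℝ) ≤ S / Y + R := by
    intro i _
    have h4 : ∑ p ∈ {p ∈ Ioc Y R | Nat.Coprime p M},
        (#{s ∈ range S | p ^ 2 ∣ (a + i) + M * s} : ℝ) ≤
        ∑ p ∈ Ioc Y R, ((S : ℝ) * ((p : ℝ) ^ 2)⁻¹ + 1) := by
      refine le_trans (sum_le_sum fun p hp => ?_) (sum_le_sum_of_subset_of_nonneg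
        (filter_subset _ _) fun _ _ _ => by positivity)
      have hp' := mem_filter.1 hp
      have := count_dvd (b := a + i) S (Nat.Coprime.pow_left 2 hp'.2)
      push_cast at this
      rwa [div_eq_mul_inv] at this
    rw [sum_add_distrib, ← mul_sum, sum_const, Nat.card_Ioc, nsmul_eq_mul, mul_one] at h4
    have h5 : ((R - Y : ℕ) : ℝ) ≤ R := by exact_mod_cast Nat.sub_le R Y
    have h6 : ∑ p ∈ Ioc Y R, ((p : ℝ) ^ 2)⁻¹ ≤ (Y : ℝ)⁻¹ := by
      rcases le_total Y R with h7 | h7
      · have := sum_Ioc_inv_sq_le_sub (α := ℝ) hY.ne' h7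
        have h8 : (0 : ℝ) ≤ (R : ℝ)⁻¹ := by positivity
        linarith
      · rw [Ioc_eq_empty (by omega), sum_empty]; positivity
    have h7 : (S : ℝ) * ∑ p ∈ Ioc Y R, ((p : ℝ) ^ 2)⁻¹ ≤ S / Y := by
      rw [div_eq_mul_inv]
      exact mul_le_mul_of_nonneg_left h6 (by positivity)
    linarith
  have h8 := h1.trans (sum_le_sum h3)
  rw [sum_const, Nat.card_Icc, nsmul_eq_mul, Nat.add_sub_cancel] at h8
  linarith

theorem exists_primes (Y W m : ℕ) (h : Y + m + 1 ≤ W.primeCounting) :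
    ∃ U : Finset ℕ, #U = m ∧ ∀ p ∈ U, p.Prime ∧ Y < p ∧ p ≤ W := by
  have h1 : #(Nat.primesLE W) = W.primeCounting := Nat.primesLE_card_eq_primeCounting W
  have h2 : #(Nat.primesLE W) - #(range (Y + 1)) ≤ #(Nat.primesLE W \ range (Y + 1)) :=
    le_card_sdiff _ _
  rw [card_range] at h2
  obtain ⟨U, hU, hc⟩ := exists_subset_card_eq (s := Nat.primesLE W \ range (Y + 1)) (n := m)
    (by omega)
  refine ⟨U, hc, fun p hp => ?_⟩
  have h3 := mem_sdiff.1 (hU hp)
  have h4 := Nat.mem_primesLE.1 h3.1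
  have h5 := h3.2
  rw [mem_range] at h5
  exact ⟨h4.2, by omega, h4.1⟩

theorem core (L W z t : ℕ) (hL1 : 1 ≤ L) (ht : 3 ≤ t) (hL : L < 2 ^ t)
    (hz : t + t + 1 ≤ z.primeCounting) (hW : 4 * L + L * t + 1 ≤ W.primeCounting) :
    ∃ n : ℕ, n + L ≤ W ^ (4 * (L * t * z)) ∧
      Set.InjOn (fun m : ℕ => #m.divisors) (Set.Icc (n + 1) (n + L)) := by
  classical
  obtain ⟨Q, hQc, hQ⟩ := exists_primes t z t hz
  obtain ⟨U, hUc, hU⟩ := exists_primes (4 * L) W (L * t) hW
  obtain ⟨B, hB1, hB2⟩ := exists_inj (Icc 1 L) Q.powerset (by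
    rw [card_powerset, hQc, Nat.card_Icc]; omega)
  obtain ⟨P, hP1, hP2⟩ := exists_inj (Icc 1 L ×ˢ Q) U (by
    rw [card_product, hQc, hUc, Nat.card_Icc]; simp)
  have hz3 : 3 ≤ z := by
    obtain ⟨q, hq⟩ := card_pos.1 (show 0 < #Q by omega)
    have := hQ q hq
    omega
  have hW4 : 4 * L ≤ W := by
    obtain ⟨p, hp⟩ := card_pos.1 (show 0 < #U by rw [hUc]; positivity)
    have := hU p hp
    omega
  set I := Icc 1 L ×ˢ Q with hI
  set e : ℕ × ℕ → ℕ := fun x => if x.2 ∈ B x.1 then x.2 - 1 else 1 with he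
  have he1 : ∀ x ∈ I, 1 ≤ e x ∧ e x + 1 ≤ z := by
    intro x hx
    have := hQ _ (mem_product.1 hx).2
    simp only [he]
    split_ifs <;> omega
  set md : ℕ × ℕ → ℕ := fun x => P x ^ (e x + 1) with hmd
  have hPp : ∀ x ∈ I, (P x).Prime := fun x hx => (hU _ (hP1 x hx)).1
  have hmd0 : ∀ x ∈ I, md x ≠ 0 := fun x hx => pow_ne_zero _ (hPp x hx).ne_zero
  have hpair : Set.Pairwise (I : Set (ℕ × ℕ)) (Function.onFun Nat.Coprime md) := by
    intro x hx y hy hxy
    exact Nat.Coprime.pow _ _ ((Nat.coprime_primes (hPp x hx) (hPp y hy)).2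
      fun h => hxy (hP2 hx hy h))
  obtain ⟨a1, ha1⟩ := Nat.chineseRemainderOfFinset
    (fun x => P x ^ e x + (md x - 1) * x.1) md I hmd0 hpair
  set A := (4 * L).factorial * L.factorial with hA
  set M1 := ∏ x ∈ I, md x with hM1
  have hAM : Nat.Coprime A M1 := by
    refine Nat.Coprime.prod_right fun x hx => Nat.Coprime.pow_right _ ?_
    have := hU _ (hP1 x hx)
    refine Nat.Coprime.symm ((Nat.Prime.coprime_iff_not_dvd this.1).2 fun h => ?_)
    rcases (Nat.Prime.dvd_mul this.1).1 h with h | h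
    · have := (this.1.dvd_factorial).1 h; omega
    · have := (this.1.dvd_factorial).1 h; omega
  have hA0 : 0 < A := Nat.mul_pos (Nat.factorial_pos _) (Nat.factorial_pos _)
  have hM10 : 0 < M1 := prod_pos fun x hx => Nat.pos_of_ne_zero (hmd0 x hx)
  have halt := Nat.chineseRemainder_lt_mul hAM 0 a1 hA0.ne' hM10.ne'
  obtain ⟨ha2, ha3⟩ := (Nat.chineseRemainder hAM 0 a1).2
  set a : ℕ := (Nat.chineseRemainder hAM 0 a1).1 with ha
  set M := A * M1 with hM
  have hM0 : 0 < M := Nat.mul_pos hA0 hM10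
  have hX : a + M * (16 * L ^ 2 * M) + L ≤ 18 * L ^ 2 * M ^ 2 := by
    have h1 : M ≤ L ^ 2 * M ^ 2 := by
      calc M = 1 * (M * 1) := by ring
        _ ≤ L ^ 2 * (M * M) := by gcongr; exacts [Nat.one_le_pow _ _ hL1, hM0]
        _ = _ := by ring
    have h2 : L ≤ L ^ 2 * M ^ 2 := by
      calc L = (L * 1) * 1 := by ring
        _ ≤ (L * L) * M ^ 2 := by gcongr; exact Nat.one_le_pow _ _ hM0
        _ = _ := by ring
    nlinarith
  obtain ⟨s, hs, hsv⟩ := sieve a M L (4 * L) (16 * L ^ 2 * M) (5 * L * M) (by omega)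
    (hX.trans (by nlinarith)) (by
      have h1 : (0 : ℝ) < L := by exact_mod_cast hL1
      have h2 : (0 : ℝ) < M := by exact_mod_cast hM0
      push_cast
      have h3 : (L : ℝ) * (16 * L ^ 2 * M / (4 * L) + 5 * L * M) = 9 * (L ^ 2 * M) := by
        field_simp; ring
      have h4 : (0 : ℝ) < L ^ 2 * M := by positivity
      rw [h3]; linarith)
  refine ⟨a + M * s, ?_, ?_⟩
  · have h1 : M1 ≤ W ^ (L * t * z) := by
      have h2 : M1 ≤ (W ^ z) ^ #I := by
        refine prod_le_pow_card _ _ _ fun x hx => ?_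
        have := hU _ (hP1 x hx)
        calc md x ≤ W ^ (e x + 1) := Nat.pow_le_pow_left this.2.2 _
          _ ≤ W ^ z := Nat.pow_le_pow_right (by omega) (he1 x hx).2
      rw [hI, card_product, hQc, Nat.card_Icc, Nat.add_sub_cancel, ← pow_mul] at h2
      rwa [mul_comm (L * t)]
    have h2 : A ≤ W ^ (5 * L) := by
      calc A ≤ (4 * L) ^ (4 * L) * L ^ L :=
            Nat.mul_le_mul (Nat.factorial_le_pow _) (Nat.factorial_le_pow _)
        _ ≤ W ^ (4 * L) * W ^ L := by gcongr; omega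
        _ = _ := by ring
    have h3 : 18 * L ^ 2 ≤ W ^ 3 := by
      calc 18 * L ^ 2 ≤ (4 * L) ^ 3 := by nlinarith [Nat.one_le_pow 2 L hL1]
        _ ≤ _ := Nat.pow_le_pow_left hW4 _
    have h4 : 9 * L ≤ L * t * z := by
      calc 9 * L = L * 3 * 3 := by ring
        _ ≤ _ := by gcongr
    calc a + M * s + L ≤ a + M * (16 * L ^ 2 * M) + L := by gcongr
      _ ≤ 18 * L ^ 2 * M ^ 2 := hX
      _ ≤ W ^ 3 * (W ^ (5 * L) * W ^ (L * t * z)) ^ 2 := by
          gcongr
          exact Nat.mul_le_mul h2 h1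
      _ = W ^ (3 + 10 * L + 2 * (L * t * z)) := by ring
      _ ≤ _ := Nat.pow_le_pow_right (by omega) (by omega)
  · set n := a + M * s with hn
    have hnA : A ∣ n := dvd_add ((Nat.modEq_zero_iff_dvd).1 ha2) (Dvd.dvd.mul_right (dvd_mul_right _ _) _)
    have hval : ∀ x ∈ I, (n + x.1).factorization (P x) = e x := by
      intro x hx
      have hx1 := (mem_Icc.1 (mem_product.1 hx).1).1
      refine val_eq (hPp x hx) (by omega) ?_
      have h1 : md x ∣ M1 := dvd_prod_of_mem _ hx
      have h2 : n ≡ a [MOD md x] := by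
        have : M * s ≡ 0 [MOD md x] := (Nat.modEq_zero_iff_dvd).2
          (Dvd.dvd.mul_right (h1.trans (dvd_mul_left _ _)) _)
        have h := Nat.ModEq.add_left a this
        rwa [add_zero] at h
      have h3 : n + x.1 ≡ P x ^ e x + (md x - 1) * x.1 + x.1 [MOD md x] :=
        ((h2.trans (ha3.of_dvd h1)).trans (ha1 x hx)).add_right _
      have h4 : P x ^ e x + (md x - 1) * x.1 + x.1 = P x ^ e x + md x * x.1 := by
        obtain ⟨c, hc⟩ := Nat.exists_eq_succ_of_ne_zero (hmd0 x hx)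
        rw [hc]; simp only [Nat.succ_eq_add_one, Nat.add_sub_cancel]; ring
      rw [h4] at h3
      exact h3.trans (Nat.ModEq.symm (by simp [hmd]))
    have key : ∀ i ∈ Icc 1 L, ∀ q ∈ Q, (q ∣ #(n + i).divisors ↔ q ∈ B i) := by
      intro i hi q hq
      have hi' := mem_Icc.1 hi
      have hq' := hQ q hq
      have hne : n + i ≠ 0 := by omega
      rw [Nat.card_divisors hne, Prime.dvd_finsetProd_iff hq'.1.prime]
      constructor
      · rintro ⟨p, hp, hd⟩
        have hpp := Nat.prime_of_mem_primeFactors hp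
        have hle := Nat.le_of_dvd (Nat.succ_pos _) hd
        by_cases hpY : p ≤ 4 * L
        · have := val_small hpp hpY hi'.1 hi'.2 hL hnA
          omega
        · by_cases hex : ∃ x ∈ I, P x = p
          · obtain ⟨x, hx, rfl⟩ := hex
            have hx' := mem_Icc.1 (mem_product.1 hx).1
            have h1 : P x ∣ n + x.1 := by
              have := ((hPp x hx).pow_dvd_iff_le_factorization (k := 1)
                (show n + x.1 ≠ 0 by omega)).2 (by rw [hval x hx]; exact (he1 x hx).1)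
              simpa using this
            have h2 : P x ∣ n + i := Nat.dvd_of_mem_primeFactors hp
            have h3 : x.1 ≡ i [MOD P x] := Nat.ModEq.add_left_cancel' n
              (((Nat.modEq_zero_iff_dvd).2 h1).trans ((Nat.modEq_zero_iff_dvd).2 h2).symm)
            have h4 : x.1 = i := Nat.ModEq.eq_of_lt_of_lt h3 (by omega) (by omega)
            rw [← h4, hval x hx] at hd hle
            have hq2 := hQ _ (mem_product.1 hx).2
            simp only [he] at hd hle
            split_ifs at hd hle with h5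
            · rw [Nat.sub_add_cancel hq2.1.one_le] at hd
              rw [(Nat.prime_dvd_prime_iff_eq hq'.1 hq2.1).1 hd, ← h4]
              exact h5
            · omega
          · have h1 : Nat.Coprime p M := by
              refine Nat.Coprime.mul_right ?_ (Nat.Coprime.prod_right fun x hx =>
                Nat.Coprime.pow_right _ ((Nat.coprime_primes hpp (hPp x hx)).2
                  fun h => hex ⟨x, hx, h.symm⟩))
              refine (Nat.Prime.coprime_iff_not_dvd hpp).2 fun h => ?_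
              rcases (Nat.Prime.dvd_mul hpp).1 h with h | h
              · have := (hpp.dvd_factorial).1 h; omega
              · have := (hpp.dvd_factorial).1 h; omega
            have h2 := hsv i hi p (by omega) h1
            rw [hpp.pow_dvd_iff_le_factorization hne] at h2
            omega
      · intro hqB
        have hx : (i, q) ∈ I := mem_product.2 ⟨hi, hq⟩
        have h1 := hval _ hx
        have h2 : e (i, q) = q - 1 := by simp only [he]; rw [if_pos hqB]
        refine ⟨P (i, q), ?_, ?_⟩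
        · rw [← Nat.support_factorization, Finsupp.mem_support_iff]
          simp only at h1
          omega
        · simp only at h1
          rw [h1, h2, Nat.sub_add_cancel hq'.1.one_le]
    intro m hm m' hm' hmm
    obtain ⟨i, rfl⟩ : ∃ i, m = n + i := ⟨m - n, by have := hm.1; omega⟩
    obtain ⟨j, rfl⟩ : ∃ j, m' = n + j := ⟨m' - n, by have := hm'.1; omega⟩
    have hi : i ∈ Icc 1 L := mem_Icc.2 ⟨by have := hm.1; omega, by have := hm.2; omega⟩
    have hj : j ∈ Icc 1 L := mem_Icc.2 ⟨by have := hm'.1; omega, by have := hm'.2; omega⟩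
    have hd : #(n + i).divisors = #(n + j).divisors := hmm
    have hB : B i = B j := by
      ext q
      constructor
      · intro h
        have hq := mem_powerset.1 (hB1 i hi) h
        rw [← key j hj q hq, ← hd, key i hi q hq]; exact h
      · intro h
        have hq := mem_powerset.1 (hB1 j hj) h
        rw [← key i hi q hq, hd, key j hj q hq]; exact h
    rw [hB2 (mem_coe.2 hi) (mem_coe.2 hj) hB]

end Pool.Agent.MP_f6f0d4_nt.H33
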